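import Mathlib
import Pool.Agent.Helper9.ClarMain

/-!
# A functional clarifying the countable well-orderings to which Kleene's O is not Borel reducible

Proof idea.  `F x` is (a code of) the isomorphism from the well-ordering `x` onto a chosen copy
of its order type, and constant `0` if `x` is not a well-ordering; clearly `F` clarifies.
Let `R₀`, `R₁` be Borel with `R₁ (F (R₀ x)) = O^x`.  There is a continuous `h` such that `O^{h x}`
determines `x` and such that a fixed number is in `O^{h x}` iff the tree coded by `x` is
well-founded.  `R₀ (h x)` is a well-ordering for all `x` outside a set with at most one point,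
and by `Σ¹₁`-boundedness only countably many order types occur.  Guessing the isomorphism onto the
chosen copies, the set of well-founded trees would be analytic, which it is not.
-/

namespace Pool.Agent.Results.MP_f7aa94_lc.NotBorelReducible

open Pool.Agent.Helper9.Clar

/-- There is a functional that clarifies the class of countable well-orderings and to which
`x ↦ O^x` is not Borel reducible, in particular not continuously reducible. -/
theorem result : ∃ F : Cantor → Cantor, ClarifiesWO F ∧
    (∀ R₀ R₁ : Cantor → Cantor, Measurable R₀ → Measurable R₁ →
      ∃ x, R₁ (F (R₀ x)) ≠ kleeneO x) ∧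
    (∀ R₀ R₁ : Cantor → Cantor, Continuous R₀ → Continuous R₁ →
      ∃ x, R₁ (F (R₀ x)) ≠ kleeneO x) :=
  ⟨FF, clarifies_FF, no_reduction,
    fun R₀ R₁ h₀ h₁ => no_reduction R₀ R₁ h₀.measurable h₁.measurable⟩

end Pool.Agent.Results.MP_f7aa94_lc.NotBorelReducible
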